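import Mathlib

namespace Pool.Agent.Results.MP_b01501_co.Counter

open Pointwise Polynomial

/-- `K` is `(H, ε)`-invariant. -/
def Invar {G : Type} [Group G] (H : Finset G) (ε : ℝ) (K : Finset G) : Prop :=
  K.Nonempty ∧ ∀ h ∈ H, ((symmDiff (h • (K : Set G)) (K : Set G)).ncard : ℝ) < ε * K.card

def Amenable (G : Type) [Group G] : Prop :=
  ∀ (H : Finset G) (ε : ℝ), 0 < ε → ∃ K : Finset G, Invar H ε K

/-- upper Banach density -/
noncomputable def dens {G : Type} [Group G] (A : Set G) : ℝ :=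
  sSup {α : ℝ | ∀ (H : Finset G) (ε : ℝ), 0 < ε →
    ∃ K : Finset G, Invar H ε K ∧ α * K.card ≤ ((A ∩ (K : Set G)).ncard : ℝ)}

def Thick {G : Type} [Group G] (A : Set G) : Prop :=
  ∀ H : Finset G, ∃ x : G, ∀ h ∈ H, h * x ∈ A

def PwSyndetic {G : Type} [Group G] (k : ℕ) (A : Set G) : Prop :=
  ∃ F : Finset G, F.card ≤ k ∧ Thick ((F : Set G) * A)

abbrev P := (ZMod 2)[X]

@[ext] structure W where
  v : ZMod 3 → P
  a : ZMod 3

noncomputable instance : Mul W := ⟨fun g h => ⟨fun i => g.v i + h.v (i - g.a), g.a + h.a⟩⟩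
noncomputable instance : One W := ⟨⟨0, 0⟩⟩
noncomputable instance : Inv W := ⟨fun g => ⟨fun i => - g.v (i + g.a), - g.a⟩⟩

@[simp] theorem mul_v (g h : W) (i : ZMod 3) : (g * h).v i = g.v i + h.v (i - g.a) := rfl
@[simp] theorem mul_a (g h : W) : (g * h).a = g.a + h.a := rfl
@[simp] theorem one_v (i : ZMod 3) : (1 : W).v i = 0 := rfl
@[simp] theorem one_a : (1 : W).a = 0 := rfl
@[simp] theorem inv_v (g : W) (i : ZMod 3) : g⁻¹.v i = - g.v (i + g.a) := rfl
@[simp] theorem inv_a (g : W) : g⁻¹.a = - g.a := rfl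

noncomputable instance : Group W := Group.ofLeftAxioms
  (fun a b c => by ext i : 2 <;> simp [add_assoc, sub_sub])
  (fun a => by ext i : 2 <;> simp)
  (fun a => by ext i : 2 <;> simp)

def L (N : ℕ) : Subgroup W where
  carrier := {g | ∀ i, (g.v i).degree < N}
  mul_mem' := fun {g h} hg hh i => lt_of_le_of_lt (degree_add_le _ _) (max_lt (hg i) (hh _))
  one_mem' := fun i => by simp
  inv_mem' := fun {g} hg i => by simpa using hg _

def T (N : ℕ) : Set (ZMod 3 → P) := {v | ∀ i, (v i).degree < N}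

theorem T_fin (N : ℕ) : (T N).Finite := by
  have : Finite (degreeLT (ZMod 2) N) := Module.finite_of_finite (ZMod 2)
  have h : {p : P | p.degree < N}.Finite := by
    have := Set.toFinite ((degreeLT (ZMod 2) N : Submodule _ _) : Set P)
    refine this.subset (fun p hp => mem_degreeLT.2 hp)
  exact (Set.Finite.pi' (fun _ : ZMod 3 => h)).subset (fun v hv => hv)

theorem card_aux (N : ℕ) (S : Set (ZMod 3)) (x : W) :
    ((fun g => g * x) '' {g | g ∈ L N ∧ g.a ∈ S}).Finite ∧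
    ((fun g => g * x) '' {g | g ∈ L N ∧ g.a ∈ S}).ncard = (T N).ncard * S.ncard := by
  have e : {g | g ∈ L N ∧ g.a ∈ S} = (fun p : (ZMod 3 → P) × ZMod 3 => W.mk p.1 p.2) ''
      (T N ×ˢ S) := by
    ext g
    constructor
    · intro h; exact ⟨(g.v, g.a), h, rfl⟩
    · rintro ⟨p, h, rfl⟩; exact h
  refine ⟨(e ▸ ((T_fin N).prod (Set.toFinite S)).image _).image _, ?_⟩
  rw [Set.ncard_image_of_injective _ (mul_left_injective x), e,
    Set.ncard_image_of_injective, Set.ncard_prod]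
  intro p q h
  exact Prod.ext (congrArg W.v h) (congrArg W.a h)

theorem exN (H : Finset W) : ∃ N, ∀ h ∈ H, h ∈ L N := by
  refine ⟨H.sup (fun h => Finset.univ.sup (fun i => (h.v i).natDegree)) + 1, fun h hh i => ?_⟩
  refine lt_of_le_of_lt degree_le_natDegree ?_
  have h1 : (h.v i).natDegree ≤ Finset.univ.sup (fun i => (h.v i).natDegree) :=
    Finset.le_sup (f := fun i => (h.v i).natDegree) (Finset.mem_univ i)
  have h2 := Finset.le_sup (f := fun h : W => Finset.univ.sup (fun i => (h.v i).natDegree)) hh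
  exact_mod_cast Nat.lt_succ_of_le (h1.trans h2)

theorem key (A : Set W) (S : Set (ZMod 3))
    (hA : ∀ N, ∃ x, ∀ g ∈ L N, g.a ∈ S → g * x ∈ A) (H : Finset W) (ε : ℝ) (hε : 0 < ε) :
    ∃ K : Finset W, Invar H ε K ∧ (S.ncard / 3 : ℝ) * K.card ≤ ((A ∩ (K : Set W)).ncard : ℝ) := by
  obtain ⟨N, hN⟩ := exN H
  obtain ⟨x, hx⟩ := hA N
  obtain ⟨f1, c1⟩ := card_aux N Set.univ x
  obtain ⟨f2, c2⟩ := card_aux N S x
  have hne : f1.toFinset.Nonempty := ⟨1 * x, by
    rw [Set.Finite.mem_toFinset]; exact ⟨1, ⟨(L N).one_mem, trivial⟩, rfl⟩⟩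
  refine ⟨f1.toFinset, ⟨hne, fun h hh => ?_⟩, ?_⟩
  · have : h • ((f1.toFinset : Finset W) : Set W) = f1.toFinset := by
      rw [Set.Finite.coe_toFinset]
      ext y
      constructor
      · rintro ⟨_, ⟨g, hg, rfl⟩, rfl⟩
        exact ⟨h * g, ⟨(L N).mul_mem (hN h hh) hg.1, trivial⟩, by simp [mul_assoc]⟩
      · rintro ⟨g, hg, rfl⟩
        exact ⟨h⁻¹ * g * x, ⟨h⁻¹ * g, ⟨(L N).mul_mem ((L N).inv_mem (hN h hh)) hg.1, trivial⟩,
          rfl⟩, by simp [mul_assoc]⟩
    rw [this, symmDiff_self]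
    have : (0 : ℝ) < f1.toFinset.card := by exact_mod_cast hne.card_pos
    simpa using mul_pos hε this
  · rw [← Set.ncard_coe_finset, Set.Finite.coe_toFinset, c1]
    have h3 : (Set.univ : Set (ZMod 3)).ncard = 3 := by simp
    have : ((fun g => g * x) '' {g | g ∈ L N ∧ g.a ∈ S}).ncard ≤
        (A ∩ (fun g => g * x) '' {g | g ∈ L N ∧ g.a ∈ Set.univ}).ncard := by
      refine Set.ncard_le_ncard ?_ (f1.inter_of_right _)
      rintro _ ⟨g, hg, rfl⟩
      exact ⟨hx g hg.1 hg.2, g, ⟨hg.1, trivial⟩, rfl⟩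
    rw [c2] at this
    have : (((T N).ncard * S.ncard : ℕ) : ℝ) ≤ _ := Nat.cast_le.2 this
    rw [h3]
    push_cast at this ⊢
    linarith

theorem le_dens (A : Set W) (S : Set (ZMod 3))
    (hA : ∀ N, ∃ x, ∀ g ∈ L N, g.a ∈ S → g * x ∈ A) : (S.ncard / 3 : ℝ) ≤ dens A := by
  refine le_csSup ⟨1, fun α hα => ?_⟩ (key A S hA)
  obtain ⟨K, hK, h⟩ := hα ∅ 1 one_pos
  have h1 : (0 : ℝ) < K.card := by exact_mod_cast hK.1.card_pos
  have h2 : (A ∩ (K : Set W)).ncard ≤ K.card := by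
    rw [← Set.ncard_coe_finset]
    exact Set.ncard_le_ncard Set.inter_subset_right K.finite_toSet
  have h3 : ((A ∩ (K : Set W)).ncard : ℝ) ≤ K.card := by exact_mod_cast h2
  by_contra hlt
  push Not at hlt
  nlinarith

def C (r : ℕ) : Set W :=
  {g | (∀ i, i ≠ g.a → (g.v i).degree < (g.v g.a).degree) ∧
    ∃ n : ℕ, (g.v g.a).degree = ((2 * n + r : ℕ) : WithBot ℕ)}

theorem C_thick (r N : ℕ) : ∃ x : W, x.a = 0 ∧ ∀ g ∈ L N, g * x ∈ C r := by
  refine ⟨⟨fun i => if i = 0 then X ^ (2 * N + r) else 0, 0⟩, rfl, fun g hg => ?_⟩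
  have hlt : ∀ i, (g.v i).degree < ((2 * N + r : ℕ) : WithBot ℕ) := fun i =>
    lt_of_lt_of_le (hg i) (by exact_mod_cast (by omega))
  have hd : (g.v g.a + X ^ (2 * N + r)).degree = ((2 * N + r : ℕ) : WithBot ℕ) := by
    rw [degree_add_eq_right_of_degree_lt (by rw [degree_X_pow]; exact hlt _), degree_X_pow]
  refine ⟨fun i hi => ?_, N, ?_⟩
  · simp only [mul_a, add_zero] at hi
    simp only [mul_v, mul_a, add_zero, sub_self, if_true, if_neg (sub_ne_zero.2 hi)]
    rw [hd]; exact hlt i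
  · simp only [mul_v, mul_a, add_zero, sub_self, if_true]
    exact hd

theorem prod_sub {g h : W} (hg : g ∈ C 0) (hh : h ∈ C 1) (i : ZMod 3) (hi : i ≠ g.a) :
    ((g * h⁻¹).v i).degree < ((g * h⁻¹).v g.a).degree := by
  obtain ⟨g1, n, g2⟩ := hg
  obtain ⟨h1, m, h2⟩ := hh
  have hne : (g.v g.a).degree ≠ (h.v h.a).degree := by
    rw [g2, h2]
    intro e
    have : 2 * n + 0 = 2 * m + 1 := by exact_mod_cast e
    omega
  have e : ((g * h⁻¹).v g.a).degree = max (g.v g.a).degree (h.v h.a).degree := by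
    simp only [mul_v, inv_v, sub_self, zero_add]
    rcases lt_or_gt_of_ne hne with h | h
    · rw [degree_add_eq_right_of_degree_lt (by simpa using h), degree_neg, max_eq_right h.le]
    · rw [degree_add_eq_left_of_degree_lt (by simpa using h), max_eq_left h.le]
  rw [e]
  simp only [mul_v, inv_v]
  refine lt_of_le_of_lt (degree_add_le _ _) (max_lt_max (g1 i hi) ?_)
  rw [degree_neg]
  exact h1 _ (fun e => hi (by linear_combination e))

theorem result : ∃ (G : Type) (_ : Group G), Amenable G ∧ ∃ A B : Set G,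
    0 < dens A ∧ 0 < dens B ∧ ¬ PwSyndetic ⌊1 / (dens A * dens B)⌋₊ (A * B⁻¹) := by
  have hA : (2 / 3 : ℝ) ≤ dens (C 0 ∩ {g | g.a ≠ 2}) := by
    have := le_dens (C 0 ∩ {g | g.a ≠ 2}) {0, 1} (fun N => by
      obtain ⟨x, h0, hx⟩ := C_thick 0 N
      refine ⟨x, fun g hg hs => ⟨hx g hg, ?_⟩⟩
      change g.a + x.a ≠ 2
      rw [h0, add_zero]
      rcases hs with h | h <;> rw [h] <;> decide)
    rw [Set.ncard_pair (by decide)] at this
    exact_mod_cast this
  have hB : (1 : ℝ) ≤ dens (C 1) := by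
    have := le_dens (C 1) Set.univ (fun N => by
      obtain ⟨x, _, hx⟩ := C_thick 1 N
      exact ⟨x, fun g hg _ => hx g hg⟩)
    have h3 : (Set.univ : Set (ZMod 3)).ncard = 3 := by simp
    rw [h3] at this
    norm_num at this
    exact this
  refine ⟨W, inferInstance, fun H ε hε => ?_, C 0 ∩ {g | g.a ≠ 2}, C 1, by linarith,
    by linarith, ?_⟩
  · obtain ⟨K, hK, _⟩ := key Set.univ Set.univ (fun N => ⟨1, fun _ _ _ => trivial⟩) H ε hε
    exact ⟨K, hK⟩
  rintro ⟨F, hF, hT⟩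
  have hk : ⌊1 / (dens (C 0 ∩ {g | g.a ≠ 2}) * dens (C 1))⌋₊ < 2 := by
    rw [Nat.floor_lt' (by norm_num), div_lt_iff₀ (by nlinarith)]
    push_cast
    nlinarith
  have hF1 : F.card ≤ 1 := by omega
  obtain ⟨f, hf⟩ := Finset.card_le_one_iff_subset_singleton.1 hF1
  classical
  obtain ⟨x, hx⟩ := hT (Finset.univ.image (fun c : ZMod 3 => f * ⟨0, c⟩))
  have st : ∀ c : ZMod 3, ∃ a, a ≠ 2 ∧ ∀ i, i ≠ a → (x.v (i - c)).degree < (x.v (a - c)).degree := by
    intro c
    obtain ⟨f', hf', y, ⟨g, hg, h, hh, rfl⟩, e⟩ := hx _ (Finset.mem_image_of_mem _ (Finset.mem_univ c))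
    have : f' = f := Finset.mem_singleton.1 (hf hf')
    subst this
    have e' : g * h = ⟨0, c⟩ * x := by
      simp only [mul_assoc] at e
      exact mul_left_cancel e
    refine ⟨g.a, hg.2, fun i hi => ?_⟩
    have := prod_sub hg.1 (Set.mem_inv.1 hh) i hi
    rw [inv_inv, e'] at this
    simpa using this
  obtain ⟨a, _, h1⟩ := st 0
  obtain ⟨b, hb, h2⟩ := st (2 - a)
  have h3 := h2 2 hb.symm
  have h4 := h1 (b - (2 - a)) (fun e => hb (by linear_combination e))
  simp only [sub_zero, sub_sub_cancel] at h3 h4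
  exact lt_asymm h3 h4

end Pool.Agent.Results.MP_b01501_co.Counter
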